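import Pool.Agent.Y481.CC.Defs3
import Pool.Agent.Y812.CY.Upt

/-!
# Project CC: upper bound for the invariants of all colours, half twists are free
-/

set_option autoImplicit false

namespace Pool.Agent.Y390.CC

open Finset Matrix Filter
open Pool.Agent.H550R3.Jones (br brf)
open Pool.Agent.W707.TV (vh Rh vh_ne br_vh_ne)
open Pool.Agent.Y482.CY (B3 lv sb Nz S_UB)
open Pool.Agent.Y481.CC
open Pool.Agent.Y812.CY (dT parts vh_norm)
open scoped Real Topology

lemma tauW_zero (u : List Lt) (b : ℕ) (v : ℂ) (m : ℕ) (hb : 1 ≤ b) (hm : 3 * (b - 1) < m) :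
    tauW u b v m = 0 := by
  unfold tauW
  refine sum_eq_zero fun x _ => if_neg ?_
  unfold lv
  have h1 := x.1.2
  have h2 := x.2.1.2
  have h3 := x.2.2.2
  omega

/-- symmetry of the differences -/
lemma dTW_symm (hS : S_SYMW) {v : ℂ} (hv : v ≠ 0) (u : List Lt) {b : ℕ} (hb : 1 ≤ b)
    (hN : Nz v (2 * b)) {m : ℕ} (hm : m ≤ 3 * b - 2) :
    dT (tauW u b v) (3 * b - 2 - m) = -dT (tauW u b v) m := by
  have h0 : tauW u b v (3 * b - 2) = 0 := tauW_zero u b v _ hb (by omega)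
  have h1 := hS v hv u b 0 hb hN (Nat.zero_le _)
  rw [Nat.sub_zero] at h1
  unfold dT
  rcases Nat.eq_zero_or_pos m with rfl | hm0
  · rw [if_neg (by omega : ¬ (3 * b - 2 - 0 = 0)), if_pos rfl, Nat.sub_zero, h0]
    have h2 : 3 * b - 2 - 1 = 3 * (b - 1) := by omega
    rw [h2, ← h1]
    ring
  · rcases Nat.lt_or_ge m (3 * b - 2) with hm1 | hm1
    · have h2 := hS v hv u b (m - 1) hb hN (by omega)
      have h3 := hS v hv u b m hb hN (by omega)
      have e1 : 3 * (b - 1) - (m - 1) = 3 * b - 2 - m := by omega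
      have e2 : 3 * (b - 1) - m = 3 * b - 2 - m - 1 := by omega
      rw [e1] at h2
      rw [e2] at h3
      rw [if_neg (by omega : ¬ (3 * b - 2 - m = 0)), if_neg (by omega : ¬ (m = 0)), ← h2, ← h3]
      ring
    · have e1 : m = 3 * b - 2 := by omega
      have e2 : 3 * b - 2 - 1 = 3 * (b - 1) := by omega
      rw [e1, Nat.sub_self, if_pos rfl, if_neg (by omega : ¬ (3 * b - 2 = 0)), h0, e2, ← h1]
      ring

lemma normW_le (hAX : S_AXW) {v : ℂ} (hv : v ≠ 0) (hv1 : ‖v‖ = 1) (u : List Lt) {a b : ℕ}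
    (ha : 1 ≤ a) (hb : 1 ≤ b) (hN : Nz v b) :
    ‖br v (a : ℤ) * tangW u a b v‖ ≤ ∑ m ∈ range (3 * b), ‖dT (tauW u b v) m‖ := by
  rw [hAX v hv u a b ha hb hN, parts v hv (tauW u b v) (3 * ((b : ℤ) - 1)) a (3 * b),
    if_neg (by omega : ¬ (3 * b = 0)), tauW_zero u b v (3 * b - 1) hb (by omega), mul_zero,
    sub_zero]
  refine (norm_sum_le _ _).trans (sum_le_sum fun m _ => ?_)
  rw [norm_mul, norm_zpow, hv1, _root_.one_zpow, _root_.one_mul]

lemma nz_vh {M b : ℕ} (hbM : b ≤ M) : Nz (vh M) (2 * b) := by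
  intro l hl hl2
  exact br_vh_ne (by exact_mod_cast hl) (by omega)

/-- the invariants of all colours are bounded by the traces on the highest weight vectors -/
lemma red (hAX : S_AXW) (hSYM : S_SYMW) (hPAT : S_PATW) (hTRC : S_TRCW) (u : List Lt)
    (h3 : (permL u).IsThreeCycle) {M a b : ℕ} (ha : 1 ≤ a) (hb : 1 ≤ b) (hbM : b ≤ M) {X : ℝ}
    (hX0 : 0 ≤ X) (hX : ∀ m, 2 * m ≤ 3 * b - 2 → ‖TW u b m (vh M)‖ ≤ X) :
    ‖br (vh M) (a : ℤ) * tangW u a b (vh M)‖ ≤ 3 * M * X := by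
  have hv := vh_ne M
  have hv1 := vh_norm M
  have hNz : Nz (vh M) (2 * b) := nz_vh hbM
  have hNz' : ∀ k, k ≤ 2 * b → Nz (vh M) k := fun k hk l hl hlk => hNz l hl (hlk.trans hk)
  have hsmall : ∀ m, 2 * m ≤ 3 * b - 2 → ‖dT (tauW u b (vh M)) m‖ ≤ X := by
    intro m hm
    have h1 : dT (tauW u b (vh M)) m = TW u b m (vh M) := by
      rw [hTRC (vh M) hv u b m (hNz' m (by omega))]
      unfold dT
      rw [hPAT (vh M) hv u b m h3 hb (by omega) hNz,
        hPAT (vh M) hv u b (m - 1) h3 hb (by omega) hNz]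
    rw [h1]
    exact hX m hm
  have hall : ∀ m ∈ range (3 * b), ‖dT (tauW u b (vh M)) m‖ ≤ X := by
    intro m hm
    have hm' := mem_range.1 hm
    rcases Nat.lt_or_ge (3 * b - 2) m with h1 | h1
    · have h2 : dT (tauW u b (vh M)) m = 0 := by
        unfold dT
        rw [if_neg (by omega : ¬ (m = 0)), tauW_zero u b _ m hb (by omega),
          tauW_zero u b _ (m - 1) hb (by omega), sub_zero]
      rw [h2, norm_zero]
      exact hX0
    · rcases Nat.lt_or_ge (3 * b - 2) (2 * m) with h2 | h2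
      · have h3 := dTW_symm hSYM hv u hb hNz h1
        have h4 := hsmall (3 * b - 2 - m) (by omega)
        rwa [h3, norm_neg] at h4
      · exact hsmall m h2
  refine (normW_le hAX hv hv1 u ha hb (hNz' b (by omega))).trans ?_
  refine (sum_le_sum hall).trans ?_
  rw [sum_const, card_range, nsmul_eq_mul]
  have hbr : ((3 * b : ℕ) : ℝ) ≤ 3 * M := by
    have : 3 * b ≤ 3 * M := by omega
    exact_mod_cast this
  exact mul_le_mul_of_nonneg_right hbr hX0

theorem uptw2 : S_AXW → S_SYMW → S_PATW → S_TRCW → S_HSW2 → S_UB → S_UPTW2 := by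
  intro hAX hSYM hPAT hTRC hHS hUB k w h3 ε hε
  obtain ⟨n, hn⟩ : ∃ n, n = w.length := ⟨_, rfl⟩
  rw [← hn]
  have hn0 : (0 : ℝ) ≤ n := Nat.cast_nonneg n
  have hpoly : ∀ᶠ M : ℕ in atTop, (3 * (M : ℝ)) ^ (n + 2) ≤ Real.exp (ε / 2 * M) := by
    have h1 := (isLittleO_pow_exp_pos_mul_atTop (k := n + 2) (half_pos hε)).bound
      (c := 1 / 3 ^ (n + 2)) (by positivity)
    have h2 := tendsto_natCast_atTop_atTop (R := ℝ) |>.eventually h1
    filter_upwards [h2] with M hM
    rw [Real.norm_of_nonneg (by positivity), Real.norm_of_nonneg (Real.exp_pos _).le,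
      div_mul_eq_mul_div, one_mul, le_div_iff₀ (by positivity)] at hM
    refine le_trans (le_of_eq ?_) hM
    rw [mul_pow]
    ring
  filter_upwards [hUB (ε / (n + 1)) (by positivity), hpoly, eventually_ge_atTop 1] with M hM hP hM1
    a b ha hb hbM
  have hv := vh_ne M
  have hv1 := vh_norm M
  have hNz : Nz (vh M) (2 * b) := nz_vh hbM
  have hNz' : ∀ k, k ≤ 2 * b → Nz (vh M) k := fun k hk l hl hlk => hNz l hl (hlk.trans hk)
  set B : ℝ := Real.exp (M / (2 * π) * (8 * GapVol.lob (π / 6)) + ε / (n + 1) * M) with hB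
  have hB0 : 0 < B := Real.exp_pos _
  have hMr : (1 : ℝ) ≤ M := by exact_mod_cast hM1
  have hsB : 0 ≤ √B := Real.sqrt_nonneg B
  have hT : ∀ m, 2 * m ≤ 3 * b - 2 →
      ‖TW (half k ++ w) b m (vh M)‖ ≤ (3 * M) * (3 * M * √B) ^ n := by
    intro m hm
    have h1 := hHS (vh M) hv k w b m B 1 hB0.le (hNz' m (by omega)) (fun e _ => by
      rw [norm_zpow, hv1, _root_.one_zpow]) (fun i a' hi ha' => hM m i a' hi ha' (by omega))
    rw [one_pow, one_mul, mul_one, ← hn] at h1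
    refine h1.trans ?_
    have h2 : (m : ℝ) + 1 ≤ 3 * M := by
      have : m + 1 ≤ 3 * M := by omega
      exact_mod_cast this
    gcongr
  refine (red hAX hSYM hPAT hTRC (half k ++ w) h3 ha hb hbM (by positivity) hT).trans ?_
  have hBn : √B ^ n ≤ Real.exp (n * (M / (2 * π) * (4 * GapVol.lob (π / 6))) + ε / 2 * M) := by
    have h1 : √B = Real.exp ((M / (2 * π) * (8 * GapVol.lob (π / 6)) + ε / (n + 1) * M) / 2) := by
      rw [hB, Real.sqrt_eq_rpow, ← Real.exp_mul]
      congr 1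
      ring
    rw [h1, ← Real.exp_nat_mul]
    refine Real.exp_le_exp.2 ?_
    have h2 : (n : ℝ) * (ε / (n + 1)) ≤ ε := by
      rw [mul_div_assoc', div_le_iff₀ (by positivity)]
      nlinarith
    have h3 : (n : ℝ) * (ε / (n + 1)) * M ≤ ε * M := mul_le_mul_of_nonneg_right h2 (by positivity)
    linarith
  calc 3 * (M : ℝ) * (3 * M * (3 * M * √B) ^ n) = (3 * (M : ℝ)) ^ (n + 2) * √B ^ n := by
        rw [mul_pow]
        ring
    _ ≤ Real.exp (ε / 2 * M) *
        Real.exp (n * (M / (2 * π) * (4 * GapVol.lob (π / 6))) + ε / 2 * M) := by gcongr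
    _ = Real.exp (n * (M / (2 * π) * (4 * GapVol.lob (π / 6))) + ε * M) := by
      rw [← Real.exp_add]
      congr 1
      ring

end Pool.Agent.Y390.CC
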